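import Pool.Agent.H30.SVL.Defs
import Pool.Agent.H82.SVL.MainThm

namespace Pool.Agent.H30.SVL

open Pool.Agent

variable {X : ℕ → Type} {α : Type}

/-- the same computation, for the old definitions -/
def old : Comp X α → H82.SVL.Comp X α
  | Comp.ret a => H82.SVL.Comp.ret a
  | Comp.ask m x k => H82.SVL.Comp.ask m x fun v => old (k v)

theorem run_old (O : ∀ m, X m → Str m) (c : Comp X α) : (old c).run O = run O c := by
  induction c with
  | ret a => rfl
  | ask m x k ih => exact ih (O m x)

theorem within_old (l : ℕ) (c : Comp X α) (q : ℕ) : (old c).Within l q ↔ Within l c q := by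
  induction c generalizing q with
  | ret a => exact Iff.rfl
  | ask m x k ih =>
    cases q with
    | zero =>
      constructor
      · exact fun h => h.elim
      · rintro ⟨h, -⟩
        exact absurd h (by norm_num)
    | succ q =>
      show (m ≤ l ∧ ∀ v, (old (k v)).Within l q) ↔ (1 ≤ q + 1 ∧ m ≤ l ∧ ∀ v, Within l (k v) q)
      simp only [ih]
      constructor
      · rintro ⟨h1, h2⟩
        exact ⟨by omega, h1, h2⟩
      · rintro ⟨-, h1, h2⟩
        exact ⟨h1, h2⟩

theorem prob_old {Ω : Type} [Fintype Ω] (E : Ω → Prop) [DecidablePred E] :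
    H82.SVL.prob E = prob E := by
  unfold H82.SVL.prob prob
  rw [Nat.card_eq_fintype_card, Nat.card_eq_fintype_card, Fintype.card_subtype]

theorem negligible_old (f : ℕ → ℝ) : H82.SVL.Negligible f ↔ Negligible f := by
  unfold H82.SVL.Negligible Negligible
  simp only [Filter.eventually_atTop, ge_iff_le]

theorem main (Code : ℕ → Type) (S : ∀ n, Code n → Str n → Comp Str (Str n))
    (V : ∀ n, Code n → Str n → ℕ → Comp Str Bool) (L : ∀ n, Code n → ℕ) (cG cR : ℕ → ℕ)
    (G : ∀ n, Str (cG n) → Comp Str (Code n))
    (R : ∀ m, Str (cR m) → Str m → Comp (fun i => Str i ⊕ Code i) (Str m)) :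
    ¬ FullyBlackBox Code S V L cG cR G R := by
  rintro ⟨hL, ⟨p, hp⟩, h⟩
  let K : H82.SVL.Construction :=
    { Code := Code
      dec := fun n c =>
        { S := fun x => old (S n c x)
          V := fun x i => old (V n c x i.1)
          L := ⟨L n c, hL n c⟩ }
      cG := cG
      G := fun n r => old (G n r)
      cR := cR
      R := fun m r y => old (R m r y) }
  have hinst : ∀ (π : H82.SVL.Fam) n r, K.inst π n r = K.dec n (run (fun m => π m) (G n r)) := by
    intro π n r
    show K.dec n ((old (G n r)).run fun m => π m) = _
    rw [run_old]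
  have hline : ∀ (π : H82.SVL.Fam) n (c : Code n) i,
      (K.dec n c).line π i = line (fun m => π m) (S n c) i := by
    intro π n c i
    unfold line
    induction i with
    | zero => rfl
    | succ i ih =>
      rw [Function.iterate_succ_apply', ← ih]
      exact run_old _ _
  refine H82.SVL.no_construction ⟨K, ⟨⟨p, fun n => ⟨fun r => ?_, fun π r => ?_, fun r y => ?_⟩⟩, ?_, ?_⟩⟩
  · exact (within_old _ _ _).2 ((hp n).1 r)
  · rw [hinst]
    have := (hp n).2.2 (fun m => π m) (fun m => (π m).bijective) r
    exact ⟨fun x => (within_old _ _ _).2 (this x).1,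
      fun x i => (within_old _ _ _).2 ((this x).2 i.1 i.2.1 i.2.2)⟩
  · exact (within_old _ _ _).2 ((hp n).2.1 r y)
  · intro π n r
    rw [hinst]
    intro x i
    rw [hline]
    show (old (V n _ x i.1)).run (fun m => π m) = true ↔ _
    rw [run_old]
    exact (h (fun m => π m) fun m => (π m).bijective).1 n r x i.1 i.2.1 i.2.2
  · intro π A hA
    have h2 := (h (fun m => π m) fun m => (π m).bijective).2 A
    rw [negligible_old] at hA ⊢
    have e1 : K.solves π A = fun n => prob fun r : Str (cG n) =>
        A n (run (fun m => π m) (G n r)) =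
          line (fun m => π m) (S n (run (fun m => π m) (G n r)))
            (L n (run (fun m => π m) (G n r))) := by
      funext n
      unfold H82.SVL.Construction.solves
      rw [prob_old]
      congr 1
      funext r
      rw [hinst, hline]
      show (A n ((old (G n r)).run fun m => π m) = _) = _
      rw [run_old]
    have e2 : K.inverts π A = fun m => prob fun p : Str (cR m) × Str m =>
        run (fun i => Sum.elim (π i) (A i)) (R m p.1 (π m p.2)) = p.2 := by
      funext m
      unfold H82.SVL.Construction.inverts
      rw [prob_old]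
      congr 1
      funext p
      show ((old (R m p.1 (π m p.2))).run _ = _) = _
      rw [run_old]
    rw [e1] at hA
    rw [e2]
    exact h2 hA

end Pool.Agent.H30.SVL
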