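import Mathlib

/-! Black-box constructions of sink-of-verifiable-line instances from permutations: definitions. -/

namespace Pool.Agent.H30.SVL

/-- Bit strings of length `m`. -/
abbrev Str (m : ℕ) : Type := Fin m → Bool

/-- Adaptive query computations with output in `α`. A query of size `m` is an element of
`X m`; its answer is a bit string of length `m`, on which the rest of the computation may
depend in an arbitrary way. -/
inductive Comp (X : ℕ → Type) (α : Type) : Type
  | ret (a : α) : Comp X α
  | ask (m : ℕ) (x : X m) (k : Str m → Comp X α) : Comp X α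

variable {X : ℕ → Type} {α : Type}

/-- The output when the queries are answered by `O`. -/
noncomputable def run (O : ∀ m, X m → Str m) (c : Comp X α) : α :=
  Comp.rec (motive := fun _ => α) (fun a => a) (fun m x _ out => out (O m x)) c

/-- Whatever the answers are, at most `q` queries are made, each of size at most `l`. -/
def Within (l : ℕ) (c : Comp X α) : ℕ → Prop :=
  Comp.rec (motive := fun _ => ℕ → Prop) (fun _ _ => True)
    (fun m _ _ within q => 1 ≤ q ∧ m ≤ l ∧ ∀ v, within v (q - 1)) c

/-- Probability of the event `E` for a uniform element of the finite set `Ω`. -/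
noncomputable def prob {Ω : Type} (E : Ω → Prop) : ℝ := Nat.card {ω // E ω} / Nat.card Ω

/-- `f n = n^{-ω(1)}` for a nonnegative function `f`. -/
def Negligible (f : ℕ → ℝ) : Prop :=
  ∀ c : ℕ, ∃ N : ℕ, ∀ n ≥ N, f n ≤ ((n : ℝ) ^ c)⁻¹

/-- `S^i(0^n)` relative to `π`. -/
noncomputable def line (π : ∀ m, Str m → Str m) {n : ℕ} (S : Str n → Comp Str (Str n)) (i : ℕ) :
    Str n :=
  (fun x => run π (S x))^[i] fun _ => false

/-- A fully black-box construction of hard-on-average valid SVL instances from one-way
permutations, with polynomially many queries of polynomial size in place of polynomial time.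
`Code n` is the set of the descriptions of instances `(S, V, L)` on `{0,1}^n`, where `S` and `V` may
query the permutation family; the sampler `G` uses `cG n` random bits; the reduction `R` uses `cR m`
random bits, has an input `y` in `{0,1}^m` and queries the permutation family and the solver. -/
def FullyBlackBox (Code : ℕ → Type) (S : ∀ n, Code n → Str n → Comp Str (Str n))
    (V : ∀ n, Code n → Str n → ℕ → Comp Str Bool) (L : ∀ n, Code n → ℕ) (cG cR : ℕ → ℕ)
    (G : ∀ n, Str (cG n) → Comp Str (Code n))
    (R : ∀ m, Str (cR m) → Str m → Comp (fun i => Str i ⊕ Code i) (Str m)) : Prop :=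
  -- the solution is `S^L(0^n)`, `1 ≤ L ≤ 2^n`
  (∀ n c, 1 ≤ L n c ∧ L n c ≤ 2 ^ n) ∧
  -- polynomial bounds on the number and the size of the queries
  (∃ p : Polynomial ℕ, ∀ n, (∀ r, Within (p.eval n) (G n r) (p.eval n)) ∧
    (∀ r y, Within (p.eval n) (R n r y) (p.eval n)) ∧
    ∀ π : ∀ m, Str m → Str m, (∀ m, (π m).Bijective) → ∀ r x,
      Within (p.eval n) (S n (run π (G n r)) x) (p.eval n) ∧
      ∀ i, 1 ≤ i → i ≤ 2 ^ n → Within (p.eval n) (V n (run π (G n r)) x i) (p.eval n)) ∧
  -- for every family `π` of permutations:
  ∀ π : ∀ m, Str m → Str m, (∀ m, (π m).Bijective) →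
    -- the sampled instances are valid
    (∀ n r x i, 1 ≤ i → i ≤ 2 ^ n →
      (run π (V n (run π (G n r)) x i) = true ↔ x = line π (S n (run π (G n r))) i)) ∧
    -- if a solver `A` has non-negligible success probability, so has the reduction
    ∀ A : ∀ n, Code n → Str n,
      ¬ Negligible (fun n => prob fun r : Str (cG n) =>
        A n (run π (G n r)) = line π (S n (run π (G n r))) (L n (run π (G n r)))) →
      ¬ Negligible (fun m => prob fun p : Str (cR m) × Str m =>
        run (fun i => Sum.elim (π i) (A i)) (R m p.1 (π m p.2)) = p.2)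

end Pool.Agent.H30.SVL
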